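import Pool.Agent.Q226.SS.Final

/-!
# There is an efficient exact uniform sampler for simplicial spanning trees

There is a coin-tossing Turing machine `M` which, on the list `F` of all nonempty faces of any finite
simplicial complex of any dimension `d ≥ 1`, outputs each spanning tree of the complex with probability
exactly `1 / N`, where `N` is the number of spanning trees, and whose expected running time is bounded
by a polynomial in the length of the input (and, if the vertices are labelled by natural numbers less
than the number `n` of faces, by a polynomial in `n`). This answers Q1: yes.

Method. Let `n` be the number of `d`-faces. The lazy exchange walk on the bases of the column matroid of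
the boundary map starts from a greedy basis and makes `T` steps, where `T` is a polynomial in `n` so large
that the distribution `u` of the last basis satisfies `(1 - 2 ^ (-s)) u B ≤ 1 / N` for all bases `B`; this
follows from the spectral gap of the walk (the theorem of Anari, Liu, Oveis Gharan and Vinzant, which
is proved here from the trickle-down theorem, `Pool/Agent/Q226/SS/Matroid.lean`). The last basis is the
output with probability `1 - 2 ^ (-s)`. With probability `2 ^ (-s)` the machine does something else: it
lists all bases, computes the distribution `u` exactly by dynamic programming, and outputs `B` with the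
probability `2 ^ s (1 / N - (1 - 2 ^ (-s)) u B)`; these numbers are nonnegative and have sum `1`, and are
rational with denominator `N` times a power of two, so rejection sampling is exact. The cost of the
second branch is `2 ^ (D n)` times a polynomial, and `s = D n + n + 1`, so its contribution to the
expected time is polynomial. Linear independence over the rationals is tested
modulo all small primes (`Pool/Agent/Q226/SS/Ind.lean`). The same holds for the bases of any matroid with
a polynomial-time test for bases (`Pool.Agent.NPC.Q226SS.sampler`).
-/

set_option autoImplicit false

namespace Pool.Agent.Results.MP_d8fb5e_lc.ExactTreeSampler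

open Pool.Agent.H591R2 Pool.Agent.NPC Pool.Agent.Q226.SS

/-- See above. The definitions `IsComplex`, `HasDim`, `IsTree`, `outProb` are in
`Pool/Agent/Q226/SS/Defs.lean`, the coding `bits` of lists of lists by bit strings in
`Pool/Agent/NPC/Defs.lean`, coin-tossing machines and `expectedTime` in
`Pool/Agent/H591R2/Defs.lean`. -/
theorem result : ∃ (M : CoinMachine) (p q : Polynomial ℕ), ∀ (F : List (List ℕ)) (d : ℕ), 1 ≤ d →
    IsComplex F → HasDim F d →
      {Y | IsTree F d Y}.Finite ∧ {Y | IsTree F d Y}.Nonempty ∧
      (∀ Y, IsTree F d Y → outProb M (bits F) (bits Y) = ({Y | IsTree F d Y}.ncard : ENNReal)⁻¹) ∧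
      M.expectedTime (bits F) ≤ (p.eval (bits F).length : ℕ) ∧
      ((∀ s ∈ F, ∀ v ∈ s, v < F.length) → M.expectedTime (bits F) ≤ (q.eval F.length : ℕ)) := by
  obtain ⟨M, p, q, h⟩ := final
  exact ⟨M, p, q, fun F d _ hF hd => h F d hF hd⟩

end Pool.Agent.Results.MP_d8fb5e_lc.ExactTreeSampler
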